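import Pool.Agent.W345.GK.TF

set_option autoImplicit false

open Polynomial Finset Matrix

namespace Pool.Agent.W405.GK.LA

open Pool.Agent.W345.GK

theorem la : S_LA := by
  classical
  intro F _ n B Y v w hker hBv hv hw hne
  obtain ⟨i, hi⟩ : ∃ i, v i ≠ 0 := by
    by_contra h
    push Not at h
    exact hv (funext h)
  set M : Matrix (Fin n) (Fin n) F[X] := B.map C - (X : F[X]) • Y.map C with hM
  set V : Fin n → F[X] := fun j => C (v j) with hV
  set b : Fin n → F := Y.mulVec v with hb
  have hMV : M.mulVec V = (-(X : F[X])) • (fun j => C (b j)) := by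
    have h1 : (B.map C).mulVec V = 0 := by
      funext j
      have : (B.mulVec v) j = 0 := by rw [hBv]; rfl
      simp only [Matrix.mulVec, dotProduct, Matrix.map_apply, hV, Pi.zero_apply] at this ⊢
      rw [← C_0, ← this, map_sum]
      simp
    have h2 : (Y.map C).mulVec V = fun j => C (b j) := by
      funext j
      simp only [Matrix.mulVec, dotProduct, Matrix.map_apply, hV, hb]
      rw [map_sum]
      simp
    rw [hM, Matrix.sub_mulVec, h1, Matrix.smul_mulVec, h2]
    simp
  have hcr : M.adjugate.mulVec (M.mulVec V) = M.det • V := by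
    rw [Matrix.mulVec_mulVec, Matrix.adjugate_mul, Matrix.smul_mulVec, Matrix.one_mulVec]
  rw [hMV, Matrix.mulVec_smul, ← Matrix.cramer_eq_adjugate_mulVec] at hcr
  have hi2 := congrFun hcr i
  simp only [Pi.smul_apply, smul_eq_mul, Matrix.cramer_apply, hV] at hi2
  -- coefficient one
  have hc := congrArg (fun p : F[X] => p.coeff 1) hi2
  simp only [neg_mul, coeff_neg, Polynomial.coeff_mul_C] at hc
  rw [show (1 : ℕ) = 0 + 1 from rfl, Polynomial.coeff_X_mul] at hc
  intro h0
  rw [show (0 + 1 : ℕ) = 1 from rfl, h0, zero_mul, neg_eq_zero] at hc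
  have hdet : (M.updateCol i (fun j => C (b j))).det.coeff 0 = (B.updateCol i b).det := by
    have := RingHom.map_det (Polynomial.constantCoeff : F[X] →+* F) (M.updateCol i (fun j => C (b j)))
    rw [Polynomial.constantCoeff_apply] at this
    rw [this]
    congr 1
    ext j k
    simp only [RingHom.mapMatrix_apply, Matrix.map_apply, Matrix.updateCol_apply, hM]
    split_ifs <;> simp
  rw [hdet] at hc
  obtain ⟨u, hu0, hu⟩ := Matrix.exists_mulVec_eq_zero_iff.2 hc
  -- u is zero
  have hsplit : (B.updateCol i b).mulVec u = B.mulVec (Function.update u i 0) + u i • b := by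
    funext j
    simp only [Matrix.mulVec, dotProduct, Pi.add_apply, Pi.smul_apply, smul_eq_mul]
    rw [← Finset.add_sum_erase _ _ (Finset.mem_univ i), ← Finset.add_sum_erase univ
      (fun x => B j x * Function.update u i 0 x) (Finset.mem_univ i)]
    have : ∑ x ∈ univ.erase i, (B.updateCol i b) j x * u x =
        ∑ x ∈ univ.erase i, B j x * Function.update u i 0 x := by
      apply Finset.sum_congr rfl
      intro x hx
      have hx := Finset.ne_of_mem_erase hx
      rw [Matrix.updateCol_ne hx, Function.update_of_ne hx]
    rw [this]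
    simp
    ring
  rw [hsplit] at hu
  have hui : u i = 0 := by
    have h1 := congrArg (fun z => dotProduct w z) hu
    simp only [dotProduct_add, dotProduct_smul, dotProduct_zero, smul_eq_mul] at h1
    rw [Matrix.dotProduct_mulVec, hw, zero_dotProduct, zero_add] at h1
    exact (mul_eq_zero.1 h1).resolve_right hne
  rw [hui, zero_smul, add_zero] at hu
  have hup : Function.update u i 0 = u := by
    rw [← hui]; simp
  rw [hup] at hu
  obtain ⟨a, ha⟩ := hker u hu
  apply hu0
  have : a * v i = 0 := by
    have := congrFun ha i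
    rw [hui] at this
    simpa using this.symm
  rw [ha, (mul_eq_zero.1 this).resolve_right hi, zero_smul]

end Pool.Agent.W405.GK.LA
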